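import Mathlib

-- merged part: Pool.Agent.Work.MP_2695c4_gt.Walks
section
/-!
Schreier graphs of two permutations, their mod 2 homology covers and walks in them.
-/

namespace Pool.Agent.Work.MP_2695c4_gt

/-- A letter: a generator together with a direction. -/
abbrev Letter : Type := Bool × Bool

/-- The inverse letter. -/
def linv (a : Letter) : Letter := (a.1, !a.2)

section Sys

variable {V : Type} (σ : Bool → Equiv.Perm V)

/-- One step along a letter. -/
def step (a : Letter) (v : V) : V := if a.2 then σ a.1 v else (σ a.1).symm v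

/-- The edge used by one step along a letter. -/
def edge (a : Letter) (v : V) : V × Bool := if a.2 then (v, a.1) else ((σ a.1).symm v, a.1)

/-- The end of the walk that starts at a vertex and reads a word. -/
def act : List Letter → V → V
  | [], v => v
  | a :: w, v => act w (step σ a v)

/-- The sum of an edge labelling along a walk. -/
def hol {A : Type} [AddCommGroup A] (s : V × Bool → A) : List Letter → V → A
  | [], _ => 0
  | a :: w, v => s (edge σ a v) + hol s w (step σ a v)

@[simp] lemma act_nil (v : V) : act σ [] v = v := rfl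
@[simp] lemma act_cons (a : Letter) (w : List Letter) (v : V) :
    act σ (a :: w) v = act σ w (step σ a v) := rfl

lemma act_append (w w' : List Letter) (v : V) : act σ (w ++ w') v = act σ w' (act σ w v) := by
  induction w generalizing v with
  | nil => rfl
  | cons a w ih => simp [ih]

@[simp] lemma step_linv (a : Letter) (v : V) : step σ (linv a) (step σ a v) = v := by
  obtain ⟨i, b⟩ := a
  cases b <;> simp [step, linv]

@[simp] lemma edge_linv (a : Letter) (v : V) : edge σ (linv a) (step σ a v) = edge σ a v := by
  obtain ⟨i, b⟩ := a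
  cases b <;> simp [step, edge, linv]

lemma edge_eq_edge {a b : Letter} {u v : V} (h : edge σ b u = edge σ a v) :
    (b = a ∧ u = v) ∨ (b = linv a ∧ u = step σ a v) := by
  obtain ⟨i, x⟩ := a
  obtain ⟨j, y⟩ := b
  cases x <;> cases y <;> simp only [edge, step, linv, Prod.mk.injEq, Bool.false_eq_true,
    if_false, if_true, Bool.not_false, Bool.not_true] at h ⊢
  · obtain ⟨h1, rfl⟩ := h
    left
    exact ⟨by simp, by simpa using h1⟩
  · obtain ⟨h1, rfl⟩ := h
    right
    exact ⟨by simp, h1⟩
  · obtain ⟨h1, rfl⟩ := h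
    right
    refine ⟨by simp, ?_⟩
    rw [← h1]; simp
  · obtain ⟨h1, rfl⟩ := h
    left
    exact ⟨by simp, h1⟩

/-- The reversed word. -/
def rev (w : List Letter) : List Letter := (w.map linv).reverse

@[simp] lemma length_rev (w : List Letter) : (rev w).length = w.length := by simp [rev]

lemma act_rev (w : List Letter) (v : V) : act σ (rev w) (act σ w v) = v := by
  induction w generalizing v with
  | nil => rfl
  | cons a w ih =>
    have : rev (a :: w) = rev w ++ [linv a] := by simp [rev]
    rw [this, act_append, act_cons σ a w v, ih]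
    simp

section Hol

variable {A : Type} [AddCommGroup A] (s : V × Bool → A)

@[simp] lemma hol_nil (v : V) : hol σ s [] v = 0 := rfl
@[simp] lemma hol_cons (a : Letter) (w : List Letter) (v : V) :
    hol σ s (a :: w) v = s (edge σ a v) + hol σ s w (step σ a v) := rfl

lemma hol_append (w w' : List Letter) (v : V) :
    hol σ s (w ++ w') v = hol σ s w v + hol σ s w' (act σ w v) := by
  induction w generalizing v with
  | nil => simp
  | cons a w ih => simp [ih, add_assoc]

lemma hol_map {B : Type} [AddCommGroup B] (φ : A →+ B) (w : List Letter) (v : V) :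
    hol σ (fun e => φ (s e)) w v = φ (hol σ s w v) := by
  induction w generalizing v with
  | nil => simp
  | cons a w ih => simp [ih]

/-- The cover defined by an edge labelling. -/
def ext (i : Bool) : Equiv.Perm (V × A) where
  toFun p := (σ i p.1, p.2 + s (p.1, i))
  invFun p := ((σ i).symm p.1, p.2 - s ((σ i).symm p.1, i))
  left_inv p := by simp
  right_inv p := by simp

lemma step_ext (h2 : ∀ x : A, x + x = 0) (a : Letter) (v : V) (x : A) :
    step (ext σ s) a (v, x) = (step σ a v, x + s (edge σ a v)) := by
  obtain ⟨i, b⟩ := a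
  cases b
  · simp only [step, edge, ext, Bool.false_eq_true, if_false, Equiv.coe_fn_symm_mk,
      Prod.mk.injEq, true_and]
    rw [sub_eq_add_neg, neg_eq_of_add_eq_zero_right (h2 _)]
  · simp [step, edge, ext]

lemma act_ext (h2 : ∀ x : A, x + x = 0) (w : List Letter) (v : V) (x : A) :
    act (ext σ s) w (v, x) = (act σ w v, x + hol σ s w v) := by
  induction w generalizing v x with
  | nil => simp
  | cons a w ih => simp [step_ext σ s h2, ih, add_assoc]

end Hol

variable [DecidableEq V]

/-- The indicator chain of an edge. -/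
def sing (e : V × Bool) : V × Bool → ZMod 2 := Pi.single e 1

/-- The mod 2 chain of a walk. -/
abbrev chain (w : List Letter) (v : V) : V × Bool → ZMod 2 := hol σ sing w v

/-- Every closed walk of length at most `g` has zero mod 2 chain. -/
def Girth (g : ℕ) : Prop :=
  ∀ (w : List Letter) (v : V), w.length ≤ g → act σ w v = v → chain σ w v = 0

lemma zmod2_add_self (x : ZMod 2) : x + x = 0 := by
  revert x; decide

lemma fun_add_self {E : Type} (c : E → ZMod 2) : c + c = 0 := by
  funext e; exact zmod2_add_self _

lemma split_of_chain_ne_zero {w : List Letter} {v : V} {e : V × Bool} (h : chain σ w v e ≠ 0) :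
    ∃ w1 b w2, w = w1 ++ b :: w2 ∧ edge σ b (act σ w1 v) = e := by
  induction w generalizing v with
  | nil => simp at h
  | cons a w ih =>
    by_cases he : edge σ a v = e
    · exact ⟨[], a, w, rfl, he⟩
    · have : chain σ w (step σ a v) e ≠ 0 := by
        intro h0
        apply h
        simp only [hol_cons, Pi.add_apply]
        rw [chain] at h0
        rw [h0, add_zero, sing, Pi.single_eq_of_ne (Ne.symm he)]
      obtain ⟨w1, b, w2, h1, h2⟩ := ih this
      exact ⟨a :: w1, b, w2, by simp [h1], h2⟩

lemma girth_zero : Girth σ 0 := by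
  intro w v hw _
  have : w = [] := List.length_eq_zero_iff.1 (Nat.le_zero.1 hw)
  subst this
  rfl

lemma Girth.mono {g g' : ℕ} (h : Girth σ g) (hg : g' ≤ g) : Girth σ g' :=
  fun w v hw => h w v (hw.trans hg)

variable [Fintype V]

lemma girth_cover {g : ℕ} (h : Girth σ g) : Girth (ext σ sing) (g + 1) := by
  have key : ∀ (n : ℕ) (w : List Letter) (y : V × (V × Bool → ZMod 2)), w.length = n →
      w.length ≤ g + 1 → act (ext σ sing) w y = y → chain (ext σ sing) w y = 0 := by
    intro n
    induction n using Nat.strong_induction_on with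
    | _ n ih =>
      intro w y hn hw hy
      obtain ⟨v, c⟩ := y
      cases w with
      | nil => rfl
      | cons a w' =>
        have hy' := hy
        rw [act_ext σ sing fun_add_self, Prod.mk.injEq, add_eq_left] at hy'
        obtain ⟨-, hc⟩ := hy'
        have h1 : chain σ w' (step σ a v) (edge σ a v) ≠ 0 := by
          intro h0
          have := congrFun hc (edge σ a v)
          simp only [hol_cons, Pi.add_apply, Pi.zero_apply] at this
          rw [chain] at h0
          rw [h0, add_zero, sing, Pi.single_eq_same] at this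
          exact one_ne_zero this
        obtain ⟨w1, b, w2, rfl, h2⟩ := split_of_chain_ne_zero σ h1
        simp only [List.length_cons, List.length_append] at hn hw
        rcases edge_eq_edge σ h2 with ⟨-, h3⟩ | ⟨rfl, h3⟩
        · have h4 : chain σ (a :: w1) v = 0 := h _ _ (by simp; omega) h3
          have h5 : act (ext σ sing) (a :: w1) (v, c) = (v, c) := by
            rw [act_ext σ sing fun_add_self, show hol σ sing (a :: w1) v = 0 from h4, add_zero,
              act_cons, h3]
          have h6 : act (ext σ sing) (b :: w2) (v, c) = (v, c) := by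
            rw [← List.cons_append, act_append, h5] at hy
            exact hy
          have h7 := ih _ (by simp; omega) (a :: w1) (v, c) rfl (by simp; omega) h5
          have h8 := ih _ (by simp; omega) (b :: w2) (v, c) rfl (by simp; omega) h6
          rw [chain, ← List.cons_append, hol_append, h5]
          rw [chain] at h7 h8
          rw [h7, h8, add_zero]
        · have h4 : chain σ w1 (step σ a v) = 0 := h _ _ (by omega) h3
          have h5 : act (ext σ sing) w1 (step (ext σ sing) a (v, c))
              = step (ext σ sing) a (v, c) := by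
            rw [step_ext σ sing fun_add_self, act_ext σ sing fun_add_self,
              show hol σ sing w1 (step σ a v) = 0 from h4, add_zero, h3]
          have h6 : act (ext σ sing) w2 (v, c) = (v, c) := by
            rw [act_cons, act_append, h5, act_cons, step_linv] at hy
            exact hy
          have h7 := ih _ (by omega) w1 _ rfl (by omega) h5
          have h8 := ih _ (by omega) w2 (v, c) rfl (by omega) h6
          rw [chain] at h7 h8
          rw [chain, hol_cons, hol_append, h5, h7, hol_cons, step_linv, edge_linv, h8, add_zero,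
            zero_add, fun_add_self]
  intro w y hw hy
  exact key _ w y rfl hw hy

/-- If the chain of a walk vanishes then so does the sum of any mod 2 labelling along it. -/
lemma hol_eq_zero_of_chain (s : V × Bool → ZMod 2) {w : List Letter} {v : V}
    (h : chain σ w v = 0) : hol σ s w v = 0 := by
  let φ : (V × Bool → ZMod 2) →+ ZMod 2 :=
    { toFun := fun c => ∑ e, c e * s e
      map_zero' := by simp
      map_add' := by intro c d; simp [add_mul, Finset.sum_add_distrib] }
  have h1 : s = fun e => φ (sing e) := by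
    funext e
    simp [φ, sing, Pi.single_apply]
  rw [h1, hol_map, show hol σ sing w v = 0 from h, map_zero]

/-- The boundary of a mod 2 chain. -/
def bd : (V × Bool → ZMod 2) →+ (V → ZMod 2) where
  toFun c := fun u => ∑ e, c e * (Pi.single (M := fun _ => ZMod 2) e.1 1 u
    + Pi.single (M := fun _ => ZMod 2) (σ e.2 e.1) 1 u)
  map_zero' := by funext u; simp
  map_add' := by intro c d; funext u; simp [add_mul, Finset.sum_add_distrib]

lemma bd_sing (e : V × Bool) :
    bd σ (sing e) = Pi.single e.1 1 + Pi.single (σ e.2 e.1) 1 := by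
  funext u
  simp only [bd, sing, AddMonoidHom.coe_mk, ZeroHom.coe_mk, Pi.add_apply]
  rw [Finset.sum_eq_single e]
  · simp
  · intro b _ hb
    rw [Pi.single_eq_of_ne hb, zero_mul]
  · simp

lemma bd_edge (a : Letter) (v : V) :
    bd σ (sing (edge σ a v)) = Pi.single v 1 + Pi.single (step σ a v) 1 := by
  obtain ⟨i, b⟩ := a
  cases b <;> simp [bd_sing, edge, step, add_comm]

lemma bd_chain (w : List Letter) (v : V) :
    bd σ (chain σ w v) = Pi.single v 1 + Pi.single (act σ w v) 1 := by
  induction w generalizing v with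
  | nil => simp [fun_add_self]
  | cons a w ih =>
    rw [chain, hol_cons, map_add, bd_edge, ih, act_cons, add_assoc,
      ← add_assoc (Pi.single (step σ a v) 1), fun_add_self, zero_add]

lemma bd_apply_eq_zero {c : V × Bool → ZMod 2} {v : V} (h : ∀ a, c (edge σ a v) = 0) :
    bd σ c v = 0 := by
  simp only [bd, AddMonoidHom.coe_mk, ZeroHom.coe_mk]
  refine Finset.sum_eq_zero fun e _ => ?_
  obtain ⟨x, i⟩ := e
  by_cases h1 : x = v
  · subst h1
    have := h (i, true)
    simp only [edge, if_true] at this
    rw [this, zero_mul]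
  · by_cases h2 : σ i x = v
    · subst h2
      have := h (i, false)
      simp only [edge, Bool.false_eq_true, if_false, Equiv.symm_apply_apply] at this
      rw [this, zero_mul]
    · simp [Pi.single_eq_of_ne (Ne.symm h1), Pi.single_eq_of_ne (Ne.symm h2)]

omit [Fintype V] in
lemma single_add_single_apply {v v' : V}
    (h : (Pi.single v 1 + Pi.single v' 1 : V → ZMod 2) v = 0) : v = v' := by
  by_contra hne
  rw [Pi.add_apply, Pi.single_eq_same, Pi.single_eq_of_ne hne, add_zero] at h
  exact one_ne_zero h

lemma hammingNorm_add_sing {c : V × Bool → ZMod 2} {e : V × Bool} (h : c e ≠ 0) :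
    hammingNorm (c + sing e) + 1 = hammingNorm c := by
  have h1 : c e = 1 := by
    generalize c e = x at h
    revert x; decide
  have : (Finset.univ.filter fun i => c i ≠ 0)
      = insert e (Finset.univ.filter fun i => (c + sing e) i ≠ 0) := by
    ext x
    by_cases hx : x = e
    · subst hx; simp [h]
    · rw [Finset.mem_insert, Finset.mem_filter, Finset.mem_filter, Pi.add_apply, sing,
        Pi.single_eq_of_ne hx, add_zero]
      simp [hx]
  rw [hammingNorm, hammingNorm, this, Finset.card_insert_of_notMem]
  rw [Finset.mem_filter, Pi.add_apply, sing, Pi.single_eq_same, h1, zmod2_add_self]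
  simp

lemma hammingNorm_chain_le (w : List Letter) (v : V) : hammingNorm (chain σ w v) ≤ w.length := by
  induction w generalizing v with
  | nil => simp
  | cons a w ih =>
    have h1 : hammingNorm (sing (edge σ a v)) ≤ 1 := by
      rw [hammingNorm, Finset.card_le_one]
      intro x hx y hy
      simp only [sing, Finset.mem_filter, Finset.mem_univ, true_and, Pi.single_apply] at hx hy
      have hx' : x = edge σ a v := by by_contra h; simp [h] at hx
      have hy' : y = edge σ a v := by by_contra h; simp [h] at hy
      rw [hx', hy']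
    have h2 : hammingNorm (sing (edge σ a v) + chain σ w (step σ a v))
        ≤ hammingNorm (sing (edge σ a v)) + hammingNorm (chain σ w (step σ a v)) := by
      rw [hammingNorm, hammingNorm, hammingNorm]
      refine le_trans (Finset.card_le_card ?_) (Finset.card_union_le _ _)
      intro x hx
      simp only [Finset.mem_filter, Finset.mem_univ, true_and, Finset.mem_union,
        Pi.add_apply] at hx ⊢
      by_contra hcon
      push Not at hcon
      exact hx (by rw [hcon.1, hcon.2, add_zero])
    have := ih (step σ a v)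
    rw [chain, hol_cons, List.length_cons]
    rw [chain] at h2 this
    omega

/-- A short chain whose boundary is a pair of vertices is the chain of a walk between them. -/
lemma exists_walk_of_chain {g : ℕ} (h : Girth σ g) :
    ∀ (k : ℕ) (D : V × Bool → ZMod 2) (v v' : V), k ≤ g → hammingNorm D = k →
      bd σ D = Pi.single v 1 + Pi.single v' 1 →
      ∃ w : List Letter, w.length = k ∧ act σ w v = v' ∧ chain σ w v = D := by
  intro k
  induction k with
  | zero =>
    intro D v v' _ hD hb
    rw [hammingNorm_eq_zero] at hD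
    subst hD
    rw [map_zero] at hb
    exact ⟨[], rfl, single_add_single_apply (v := v) (v' := v') (by rw [← hb]; rfl), rfl⟩
  | succ k ih =>
    intro D v v' hk hD hb
    by_cases hA : ∃ a, D (edge σ a v) ≠ 0
    · obtain ⟨a, ha⟩ := hA
      have h1 := hammingNorm_add_sing ha
      obtain ⟨w, hw1, hw2, hw3⟩ := ih (D + sing (edge σ a v)) (step σ a v) v' (by omega) (by omega)
        (by
          rw [map_add, hb, bd_edge, add_add_add_comm, fun_add_self, zero_add, add_comm])
      refine ⟨a :: w, by simp [hw1], hw2, ?_⟩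
      rw [chain] at hw3
      rw [chain, hol_cons, hw3, add_comm D, ← add_assoc, fun_add_self, zero_add]
    · exfalso
      push Not at hA
      have h1 := bd_apply_eq_zero σ hA
      rw [hb] at h1
      obtain rfl := single_add_single_apply h1
      rw [fun_add_self] at hb
      have hD0 : D ≠ 0 := by
        intro h0
        rw [h0, hammingNorm_zero] at hD
        omega
      obtain ⟨⟨x, i⟩, he⟩ := Function.ne_iff.1 hD0
      have he' : D (edge σ (i, true) x) ≠ 0 := by simpa [edge] using he
      have h2 := hammingNorm_add_sing he'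
      obtain ⟨w, hw1, hw2, hw3⟩ := ih (D + sing (edge σ (i, true) x)) (step σ (i, true) x) x
        (by omega) (by omega) (by rw [map_add, hb, bd_edge, zero_add, add_comm])
      have h3 := h ((i, true) :: w) x (by simp; omega) hw2
      rw [chain] at hw3
      rw [chain, hol_cons, hw3, add_comm D, ← add_assoc, fun_add_self, zero_add] at h3
      exact hD0 h3

end Sys

/-- A finite nonempty set with two permutations. -/
structure Sys where
  V : Type
  fin : Fintype V
  dec : DecidableEq V
  ne : Nonempty V
  σ : Bool → Equiv.Perm V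

attribute [instance] Sys.fin Sys.dec Sys.ne

lemma exists_sys (g : ℕ) : ∃ S : Sys, Girth S.σ g := by
  induction g with
  | zero => exact ⟨⟨Unit, inferInstance, inferInstance, inferInstance, fun _ => 1⟩, girth_zero _⟩
  | succ g ih =>
    obtain ⟨S, hS⟩ := ih
    exact ⟨⟨S.V × (S.V × Bool → ZMod 2), inferInstance, inferInstance, inferInstance,
      ext S.σ sing⟩, girth_cover S.σ hS⟩

end Pool.Agent.Work.MP_2695c4_gt
end

-- merged part: Pool.Agent.Work.MP_2695c4_gt.Metric
section
/-!
Truncated word metrics on a disjoint union, and finite sets as points of a Hilbert space.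
-/

namespace Pool.Agent.Work.MP_2695c4_gt

open scoped RealInnerProductSpace symmDiff

section Word

variable {P : Type} (σ : Bool → Equiv.Perm P) (lvl : P → ℕ)

/-- The word distance, truncated at the larger of the two levels plus one. -/
noncomputable def wd (p q : P) : ℕ :=
  sInf {k | k = max (lvl p) (lvl q) + 1 ∨ ∃ w : List Letter, w.length = k ∧ act σ w p = q}

lemma wd_le_max (p q : P) : wd σ lvl p q ≤ max (lvl p) (lvl q) + 1 :=
  Nat.sInf_le (Or.inl rfl)

lemma wd_le_length {p q : P} {w : List Letter} (h : act σ w p = q) : wd σ lvl p q ≤ w.length :=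
  Nat.sInf_le (Or.inr ⟨w, rfl, h⟩)

lemma wd_cases (p q : P) : wd σ lvl p q = max (lvl p) (lvl q) + 1 ∨
    ∃ w : List Letter, w.length = wd σ lvl p q ∧ act σ w p = q :=
  Nat.sInf_mem (s := {k | k = max (lvl p) (lvl q) + 1 ∨
    ∃ w : List Letter, w.length = k ∧ act σ w p = q}) ⟨_, Or.inl rfl⟩

lemma wd_comm_le (p q : P) : wd σ lvl q p ≤ wd σ lvl p q := by
  rcases wd_cases σ lvl p q with h | ⟨w, hw, rfl⟩
  · rw [h, max_comm]; exact wd_le_max σ lvl q p
  · rw [← hw, ← length_rev]; exact wd_le_length σ lvl (act_rev σ w p)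

lemma wd_triangle (hl : ∀ w p, lvl (act σ w p) = lvl p) (p q r : P) :
    wd σ lvl p r ≤ wd σ lvl p q + wd σ lvl q r := by
  have h0 := wd_le_max σ lvl p r
  rcases wd_cases σ lvl p q with h | ⟨w, hw, h⟩ <;>
    rcases wd_cases σ lvl q r with h' | ⟨w', hw', h'⟩
  · omega
  · have := hl w' q
    rw [h'] at this
    omega
  · have := hl w p
    rw [h] at this
    omega
  · have := wd_le_length σ lvl (w := w ++ w') (p := p) (q := r) (by rw [act_append, h, h'])
    rw [List.length_append] at this
    omega

/-- The metric space given by the truncated word distance. -/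
@[reducible] noncomputable def wordMetric (hl : ∀ w p, lvl (act σ w p) = lvl p) : MetricSpace P where
  dist p q := (wd σ lvl p q : ℝ)
  dist_self p := by
    have := wd_le_length σ lvl (w := []) (p := p) (q := p) rfl
    simp only [List.length_nil, nonpos_iff_eq_zero] at this
    simp [this]
  dist_comm p q := by
    simp only [Nat.cast_inj]
    exact le_antisymm (wd_comm_le σ lvl q p) (wd_comm_le σ lvl p q)
  dist_triangle p q r := by exact_mod_cast wd_triangle σ lvl hl p q r
  eq_of_dist_eq_zero {p q} h := by
    simp only [Nat.cast_eq_zero] at h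
    rcases wd_cases σ lvl p q with h' | ⟨w, hw, h'⟩
    · omega
    · rw [h, List.length_eq_zero_iff] at hw
      subst hw
      exact h'

end Word

section Sigma

variable {W : ℕ → Type} (σ : ∀ n, Bool → Equiv.Perm (W n))

/-- The permutations of a disjoint union. -/
def glue (i : Bool) : Equiv.Perm (Σ n, W n) := Equiv.Perm.sigmaCongrRight fun n => σ n i

lemma step_glue (a : Letter) (n : ℕ) (x : W n) :
    step (glue σ) a ⟨n, x⟩ = ⟨n, step (σ n) a x⟩ := by
  obtain ⟨i, b⟩ := a
  cases b <;> rfl

lemma act_glue (w : List Letter) (n : ℕ) (x : W n) :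
    act (glue σ) w ⟨n, x⟩ = ⟨n, act (σ n) w x⟩ := by
  induction w generalizing x with
  | nil => rfl
  | cons a w ih => rw [act_cons, step_glue, ih, act_cons]

lemma fst_act_glue (w : List Letter) (p : Σ n, W n) : (act (glue σ) w p).1 = p.1 := by
  obtain ⟨n, x⟩ := p
  rw [act_glue]

lemma finite_level [∀ n, Finite (W n)] (k : ℕ) : {p : Σ n, W n | p.1 ≤ k}.Finite := by
  have : {p : Σ n, W n | p.1 ≤ k} ⊆ ⋃ n ∈ Set.Iic k, Set.range (Sigma.mk n) := by
    rintro ⟨n, x⟩ h
    simp only [Set.mem_iUnion]
    exact ⟨n, h, x, rfl⟩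
  exact ((Set.finite_Iic k).biUnion fun n _ => Set.finite_range _).subset this

/-- Sets made of points of low level and of ends of short walks have bounded size. -/
lemma exists_bound [∀ n, Finite (W n)] (k : ℕ) : ∃ N : ℕ, ∀ (p : Σ n, W n) (S : Set (Σ n, W n)),
    (∀ q ∈ S, q.1 ≤ k ∨ ∃ w : List Letter, w.length ≤ k ∧ act (glue σ) w p = q) →
      S.encard ≤ N := by
  have h1 := finite_level (W := W) k
  have h2 : {w : List Letter | w.length ≤ k}.Finite := List.finite_length_le Letter k
  refine ⟨{p : Σ n, W n | p.1 ≤ k}.ncard + {w : List Letter | w.length ≤ k}.ncard, ?_⟩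
  intro p S hS
  have h3 : S ⊆ {p : Σ n, W n | p.1 ≤ k} ∪
      (fun w => act (glue σ) w p) '' {w : List Letter | w.length ≤ k} := by
    intro q hq
    rcases hS q hq with h | ⟨w, hw, h⟩
    · exact Or.inl h
    · exact Or.inr ⟨w, hw, h⟩
  calc S.encard ≤ _ := Set.encard_le_encard h3
    _ ≤ _ := Set.encard_union_le _ _
    _ ≤ {p : Σ n, W n | p.1 ≤ k}.encard + {w : List Letter | w.length ≤ k}.encard := by
      gcongr
      exact Set.encard_image_le _ _
    _ = _ := by
      rw [← h1.cast_ncard_eq, ← h2.cast_ncard_eq]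
      push_cast
      rfl

end Sigma

section Cube

variable {J : Type} [DecidableEq J]

/-- The indicator vector of a finite set. -/
noncomputable def emb (A : Finset J) : lp (fun _ : J => ℝ) 2 := ∑ j ∈ A, lp.single 2 j (1 : ℝ)

lemma orthonormal_single :
    Orthonormal ℝ (fun j : J => (lp.single 2 j (1 : ℝ) : lp (fun _ : J => ℝ) 2)) := by
  rw [orthonormal_iff_ite]
  intro i j
  rw [lp.inner_single_left, lp.single_apply, Pi.single_apply]
  split_ifs <;> simp

lemma norm_emb_sub_sq (A B : Finset J) : ‖emb A - emb B‖ ^ 2 = (A ∆ B).card := by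
  let l : J → ℝ := fun j => (if j ∈ A then 1 else 0) - (if j ∈ B then 1 else 0)
  have h : ∀ C : Finset J, C ⊆ A ∪ B → emb C = ∑ j ∈ A ∪ B,
      (if j ∈ C then (1 : ℝ) else 0) • (lp.single 2 j (1 : ℝ) : lp (fun _ : J => ℝ) 2) := by
    intro C hC
    rw [emb, ← Finset.sum_subset hC]
    · refine Finset.sum_congr rfl fun j hj => ?_
      rw [if_pos hj, one_smul]
    · intro j _ hj
      rw [if_neg hj, zero_smul]
  have h1 : emb A - emb B = ∑ j ∈ A ∪ B,
      l j • (lp.single 2 j (1 : ℝ) : lp (fun _ : J => ℝ) 2) := by
    rw [h A Finset.subset_union_left, h B Finset.subset_union_right, ← Finset.sum_sub_distrib]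
    refine Finset.sum_congr rfl fun j _ => ?_
    rw [← sub_smul]
  rw [← real_inner_self_eq_norm_sq, h1, orthonormal_single.inner_sum]
  have h2 : A ∆ B = (A ∪ B).filter fun j => j ∈ A ∆ B := by
    ext j
    simp only [Finset.mem_filter, Finset.mem_union, Finset.mem_symmDiff]
    tauto
  rw [h2, Finset.card_filter]
  push_cast
  refine Finset.sum_congr rfl fun j _ => ?_
  by_cases ha : j ∈ A <;> by_cases hb : j ∈ B <;> simp [l, ha, hb, Finset.mem_symmDiff]

end Cube

end Pool.Agent.Work.MP_2695c4_gt
end

-- merged part: Pool.Agent.Work.MP_2695c4_gt.Rounding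
section
/-!
A signing with linear frustration index, and Gaussian hyperplane rounding.
-/

namespace Pool.Agent.Work.MP_2695c4_gt

open MeasureTheory ProbabilityTheory
open scoped RealInnerProductSpace

/-- A graph with twice as many edges as vertices has a signing such that every switching leaves
at least a fixed share of the edges frustrated. -/
lemma exists_frustrated {V E : Type} [Fintype V] [Fintype E] [Nonempty V] [DecidableEq V]
    [DecidableEq E] (src tgt : E → V) (hE : Fintype.card E = 2 * Fintype.card V) :
    ∃ s : E → ZMod 2, ∀ τ : V → ZMod 2,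
      Fintype.card V ≤ 8 * (Finset.univ.filter fun e => s e ≠ τ (src e) + τ (tgt e)).card := by
  set N := Fintype.card V with hN
  have hNpos : N ≠ 0 := Fintype.card_ne_zero
  let wt : (V → ZMod 2) → E → ZMod 2 → ℝ :=
    fun τ e x => if x ≠ τ (src e) + τ (tgt e) then 1 / 4 else 1
  have hwt : ∀ τ e, ∑ x, wt τ e x = 5 / 4 := by
    intro τ e
    simp only [wt]
    generalize τ (src e) + τ (tgt e) = y
    have huniv : (Finset.univ : Finset (ZMod 2)) = {0, 1} := by decide
    rw [huniv, Finset.sum_pair (by decide)]
    have : y = 0 ∨ y = 1 := by revert y; decide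
    rcases this with rfl | rfl
    · rw [if_neg (by simp), if_pos (by decide)]; norm_num
    · rw [if_pos (by decide), if_neg (by simp)]; norm_num
  have hsum : ∑ s : E → ZMod 2, ∑ τ : V → ZMod 2, ∏ e, wt τ e (s e)
      = ∑ _s : E → ZMod 2, (25 / 32 : ℝ) ^ N := by
    rw [Finset.sum_comm]
    have : ∀ τ : V → ZMod 2, ∑ s : E → ZMod 2, ∏ e, wt τ e (s e) = (5 / 4 : ℝ) ^ (2 * N) := by
      intro τ
      rw [← Fintype.prod_sum (fun e x => wt τ e x)]
      simp only [hwt, Finset.prod_const, Finset.card_univ, hE]
    simp only [this, Finset.sum_const, Finset.card_univ, Fintype.card_fun, ZMod.card, hE,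
      nsmul_eq_mul, ← hN]
    push_cast
    rw [pow_mul, pow_mul, ← mul_pow, ← mul_pow]
    norm_num
  obtain ⟨s, -, hs⟩ := Finset.exists_le_of_sum_le Finset.univ_nonempty hsum.le
  refine ⟨s, fun τ => ?_⟩
  set d := (Finset.univ.filter fun e => s e ≠ τ (src e) + τ (tgt e)).card with hd
  have h1 : ∏ e, wt τ e (s e) = (1 / 4 : ℝ) ^ d := by
    simp only [wt]
    rw [Finset.prod_ite, Finset.prod_const, Finset.prod_const_one, mul_one]
  have h2 : (1 / 4 : ℝ) ^ d ≤ (25 / 32 : ℝ) ^ N := by
    rw [← h1]
    refine le_trans ?_ hs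
    refine Finset.single_le_sum (f := fun τ : V → ZMod 2 => ∏ e, wt τ e (s e)) ?_
      (Finset.mem_univ τ)
    intro τ' _
    refine Finset.prod_nonneg fun e _ => ?_
    simp only [wt]
    split_ifs <;> norm_num
  by_contra hcon
  push Not at hcon
  have h3 : (1 / 4 : ℝ) ^ N ≤ (1 / 4 : ℝ) ^ (8 * d) :=
    pow_le_pow_of_le_one (by norm_num) (by norm_num) hcon.le
  have h4 : ((1 / 4 : ℝ) ^ d) ^ 8 ≤ ((25 / 32 : ℝ) ^ N) ^ 8 :=
    pow_le_pow_left₀ (by positivity) h2 8
  have h5 : ((25 / 32 : ℝ) ^ 8) ^ N < (1 / 4 : ℝ) ^ N :=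
    pow_lt_pow_left₀ (by norm_num) (by positivity) hNpos
  rw [← pow_mul, mul_comm d 8, ← pow_mul, mul_comm N 8, pow_mul (25 / 32 : ℝ)] at h4
  linarith

lemma gaussianReal_small {v : NNReal} {T t : ℝ} (hT : 0 < T) (ht : 0 ≤ t) (hv : T ^ 2 ≤ v) :
    (gaussianReal 0 v).real {x | |x| ≤ t} ≤ t / T := by
  have hv0 : v ≠ 0 := by
    intro h
    rw [h] at hv
    have : 0 < T ^ 2 := by positivity
    simp at hv
    linarith
  have hset : {x : ℝ | |x| ≤ t} = Set.Icc (-t) t := by
    ext x; simp [abs_le]
  have hpdf : ∀ x, gaussianPDF 0 v x ≤ ENNReal.ofReal (1 / (2 * T)) := by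
    intro x
    rw [gaussianPDF]
    apply ENNReal.ofReal_le_ofReal
    rw [gaussianPDFReal]
    have h1 : Real.exp (-(x - 0) ^ 2 / (2 * v)) ≤ 1 := by
      rw [Real.exp_le_one_iff]
      apply div_nonpos_of_nonpos_of_nonneg
      · exact neg_nonpos.2 (sq_nonneg _)
      · positivity
    have h2 : 2 * T ≤ √(2 * Real.pi * v) := by
      apply Real.le_sqrt_of_sq_le
      have := Real.pi_gt_three
      have hv' : (0 : ℝ) ≤ v := v.2
      nlinarith
    calc (√(2 * Real.pi * v))⁻¹ * Real.exp (-(x - 0) ^ 2 / (2 * v))
        ≤ (√(2 * Real.pi * v))⁻¹ * 1 := by gcongr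
      _ ≤ 1 / (2 * T) := by
        rw [mul_one, one_div]
        exact inv_anti₀ (by positivity) h2
  rw [Measure.real, hset, gaussianReal_apply _ hv0]
  apply ENNReal.toReal_le_of_le_ofReal (by positivity)
  calc ∫⁻ x in Set.Icc (-t) t, gaussianPDF 0 v x
      ≤ ∫⁻ _ in Set.Icc (-t) t, ENNReal.ofReal (1 / (2 * T)) := lintegral_mono hpdf
    _ = ENNReal.ofReal (1 / (2 * T)) * ENNReal.ofReal (t - -t) := by
      rw [setLIntegral_const, Real.volume_Icc]
    _ = ENNReal.ofReal (t / T) := by
      rw [← ENNReal.ofReal_mul (by positivity)]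
      congr 1
      field_simp
      ring

section

variable {F : Type*} [NormedAddCommGroup F] [InnerProductSpace ℝ F] [FiniteDimensional ℝ F]
  [MeasurableSpace F] [BorelSpace F]

lemma stdGaussian_small (x : F) {T t : ℝ} (hT : 0 < T) (ht : 0 ≤ t) (hx : T ≤ ‖x‖) :
    (stdGaussian F).real {g | |⟪x, g⟫| ≤ t} ≤ t / T := by
  have h1 := IsGaussian.map_eq_gaussianReal (μ := stdGaussian F) (innerSL ℝ x)
  rw [integral_strongDual_stdGaussian, variance_dual_stdGaussian, innerSL_apply_norm] at h1
  have h2 : (stdGaussian F).real {g | |⟪x, g⟫| ≤ t}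
      = ((stdGaussian F).map (innerSL ℝ x)).real {y | |y| ≤ t} := by
    rw [Measure.real, Measure.real, Measure.map_apply (by fun_prop)
      (measurableSet_le (by fun_prop) (by fun_prop))]
    rfl
  rw [h2, h1]
  apply gaussianReal_small hT ht
  rw [Real.coe_toNNReal _ (sq_nonneg _)]
  gcongr

lemma stdGaussian_large (x : F) {B t : ℝ} (ht : 0 < t) (hx : ‖x‖ ≤ B) :
    (stdGaussian F).real {g | t ≤ |⟪x, g⟫|} ≤ B ^ 2 / t ^ 2 := by
  have h1 := meas_ge_le_variance_div_sq
    (IsGaussian.memLp_dual (stdGaussian F) (innerSL ℝ x) 2 (by simp)) ht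
  rw [integral_strongDual_stdGaussian, variance_dual_stdGaussian, innerSL_apply_norm] at h1
  simp only [sub_zero, innerSL_apply_apply] at h1
  rw [Measure.real]
  apply ENNReal.toReal_le_of_le_ofReal (by positivity)
  refine h1.trans (ENNReal.ofReal_le_ofReal ?_)
  gcongr

end

/-- The real sign attached to a class mod 2. -/
def sgn (x : ZMod 2) : ℝ := if x = 0 then 1 else -1

lemma abs_le_of_frustrated (a b : ℝ) (s : ZMod 2)
    (h : s ≠ (if 0 ≤ a then 0 else 1) + (if 0 ≤ b then 0 else 1)) : |a| ≤ |a - sgn s * b| := by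
  have hs : s = 0 ∨ s = 1 := by clear h; revert s; decide
  have h11 : (1 : ZMod 2) + 1 = 0 := by decide
  rcases hs with rfl | rfl
  · have : sgn 0 = 1 := by simp [sgn]
    rw [this, one_mul]
    by_cases ha : 0 ≤ a <;> by_cases hb : 0 ≤ b
    · simp [ha, hb] at h
    · push Not at hb
      rw [abs_of_nonneg ha, abs_of_nonneg (by linarith)]; linarith
    · push Not at ha
      rw [abs_of_neg ha, abs_of_neg (by linarith)]; linarith
    · simp [ha, hb, h11] at h
  · have : sgn 1 = -1 := by simp [sgn]
    rw [this, neg_one_mul, sub_neg_eq_add]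
    by_cases ha : 0 ≤ a <;> by_cases hb : 0 ≤ b
    · rw [abs_of_nonneg ha, abs_of_nonneg (by linarith)]; linarith
    · simp [ha, hb] at h
    · simp [ha, hb] at h
    · push Not at ha hb
      rw [abs_of_neg ha, abs_of_neg (by linarith)]; linarith

lemma rounding_fd {F : Type*} [NormedAddCommGroup F] [InnerProductSpace ℝ F]
    [FiniteDimensional ℝ F] {V E : Type} [Fintype E] (src tgt : E → V) (s : E → ZMod 2)
    (u : V → F) {B : ℝ} (hB : 0 < B) (hu : ∀ v, 512 * B ≤ ‖u v‖)
    (he : ∀ e, ‖u (src e) - sgn (s e) • u (tgt e)‖ ≤ B) :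
    ∃ τ : V → ZMod 2,
      32 * (Finset.univ.filter fun e => s e ≠ τ (src e) + τ (tgt e)).card ≤ Fintype.card E := by
  classical
  borelize F
  let μ := stdGaussian F
  let bad : E → Set F := fun e =>
    {g | |⟪u (src e), g⟫| ≤ 8 * B} ∪ {g | 8 * B ≤ |⟪u (src e) - sgn (s e) • u (tgt e), g⟫|}
  have hmeas : ∀ e, MeasurableSet (bad e) := fun e =>
    (measurableSet_le (by fun_prop) (by fun_prop)).union
      (measurableSet_le (by fun_prop) (by fun_prop))
  have hbad : ∀ e, μ.real (bad e) ≤ 1 / 32 := by
    intro e
    have h1 := stdGaussian_small (u (src e)) (T := 512 * B) (t := 8 * B) (by positivity)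
      (by positivity) (hu _)
    have h2 := stdGaussian_large _ (t := 8 * B) (by positivity) (he e)
    have h3 : 8 * B / (512 * B) = 1 / 64 := by field_simp; norm_num
    have h4 : B ^ 2 / (8 * B) ^ 2 = 1 / 64 := by field_simp; norm_num
    refine (measureReal_union_le _ _).trans ?_
    rw [h3] at h1
    rw [h4] at h2
    linarith
  let f : F → ℝ := fun g => ∑ e, (bad e).indicator 1 g
  have hint : ∀ e, Integrable ((bad e).indicator (1 : F → ℝ)) μ := fun e =>
    (integrable_const (1 : ℝ)).indicator (hmeas e)
  have hf : Integrable f μ := integrable_finsetSum _ fun e _ => hint e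
  obtain ⟨g, hg⟩ := exists_le_integral hf
  have hI : ∫ x, f x ∂μ ≤ Fintype.card E / 32 := by
    rw [integral_finsetSum _ fun e _ => hint e]
    calc ∑ e, ∫ x, (bad e).indicator (1 : F → ℝ) x ∂μ ≤ ∑ _e : E, (1 / 32 : ℝ) := by
          refine Finset.sum_le_sum fun e _ => ?_
          rw [integral_indicator_one (hmeas e)]
          exact hbad e
      _ = Fintype.card E / 32 := by simp; ring
  let τ : V → ZMod 2 := fun v => if 0 ≤ ⟪u v, g⟫ then 0 else 1
  refine ⟨τ, ?_⟩
  have hc : (((Finset.univ.filter fun e => s e ≠ τ (src e) + τ (tgt e)).card : ℕ) : ℝ) ≤ f g := by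
    rw [Finset.card_filter]
    push_cast
    refine Finset.sum_le_sum fun e _ => ?_
    split_ifs with h
    · have h1 := abs_le_of_frustrated _ _ _ h
      have h2 : g ∈ bad e := by
        by_cases h3 : |⟪u (src e), g⟫| ≤ 8 * B
        · exact Or.inl h3
        · right
          simp only [Set.mem_ofPred_eq, inner_sub_left, real_inner_smul_left]
          linarith
      simp [h2]
    · exact Set.indicator_nonneg (fun _ _ => zero_le_one) _
  generalize (Finset.univ.filter fun e => s e ≠ τ (src e) + τ (tgt e)).card = d at hc ⊢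
  have : (32 : ℝ) * (d : ℝ) ≤ Fintype.card E := by linarith
  exact_mod_cast this

lemma rounding {H : Type*} [NormedAddCommGroup H] [InnerProductSpace ℝ H]
    {V E : Type} [Finite V] [Fintype E] (src tgt : E → V) (s : E → ZMod 2)
    (u : V → H) {B : ℝ} (hB : 0 < B) (hu : ∀ v, 512 * B ≤ ‖u v‖)
    (he : ∀ e, ‖u (src e) - sgn (s e) • u (tgt e)‖ ≤ B) :
    ∃ τ : V → ZMod 2,
      32 * (Finset.univ.filter fun e => s e ≠ τ (src e) + τ (tgt e)).card ≤ Fintype.card E := by
  let F := Submodule.span ℝ (Set.range u)
  have : FiniteDimensional ℝ F := FiniteDimensional.span_of_finite ℝ (Set.finite_range u)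
  let u' : V → F := fun v => ⟨u v, Submodule.subset_span ⟨v, rfl⟩⟩
  exact rounding_fd src tgt s u' hB hu he

end Pool.Agent.Work.MP_2695c4_gt
end
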