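import Mathlib

/-!
The notions of coarse geometry used in the statement.
-/

namespace Pool.Agent.Work.MP_2695c4_gt

open scoped NNReal

universe u v w

/-- A metric space is uniformly locally finite if for each radius the closed balls of that radius
have uniformly bounded (finite) cardinality. -/
def UnifLocFinite (X : Type v) [MetricSpace X] : Prop :=
  ∀ r : ℝ, 0 < r → ∃ N : ℕ, ∀ x : X, (Metric.closedBall x r).encard ≤ N

/-- A coarse map: for every `r > 0` there is `s > 0` with `d(x,x') ≤ r → d(f x, f x') ≤ s`. -/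
def IsCoarseMap {X : Type v} {Y : Type w} [MetricSpace X] [MetricSpace Y] (f : X → Y) : Prop :=
  ∀ r : ℝ, 0 < r → ∃ s : ℝ, 0 < s ∧ ∀ x x' : X, dist x x' ≤ r → dist (f x) (f x') ≤ s

/-- A uniformly finite-to-one map: the fibres have uniformly bounded (finite) cardinality. -/
def UnifFiniteToOne {X : Type v} {Y : Type w} (f : X → Y) : Prop :=
  ∃ N : ℕ, ∀ y : Y, (f ⁻¹' {y}).encard ≤ N

/-- `X` coarsely embeds into a (real) Hilbert space whose underlying type lies in universe `u`. -/
def CoarselyEmbedsInHilbert (X : Type v) [MetricSpace X] : Prop :=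
  ∃ (H : Type u) (_ : NormedAddCommGroup H) (_ : InnerProductSpace ℝ H) (_ : CompleteSpace H)
    (g : X → H) (ρm ρp : ℝ≥0 → ℝ≥0), Filter.Tendsto ρm Filter.atTop Filter.atTop ∧
      ∀ x x' : X, ρm (nndist x x') ≤ ‖g x - g x'‖₊ ∧ ‖g x - g x'‖₊ ≤ ρp (nndist x x')

end Pool.Agent.Work.MP_2695c4_gt
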