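import Pool.Agent.Work.MP_2695c4_gt.Defs
import Pool.Agent.Work.MP_2695c4_gt.Rounding

/-!
The counterexample: frustrated double covers of mod 2 homology covers of graphs of large girth.
-/

namespace Pool.Agent.Work.MP_2695c4_gt

open scoped symmDiff NNReal

/-- A finite 4-regular Schreier graph without short cycles. -/
noncomputable def Z (n : ℕ) : Sys := (exists_sys n).choose

lemma girth_Z (n : ℕ) : Girth (Z n).σ n := (exists_sys n).choose_spec

/-- The vertices of its mod 2 homology cover. -/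
abbrev YV (n : ℕ) : Type := (Z n).V × ((Z n).V × Bool → ZMod 2)

/-- The permutations of the homology cover. -/
noncomputable def σY (n : ℕ) : Bool → Equiv.Perm (YV n) := ext (Z n).σ sing

lemma girth_Y (n : ℕ) : Girth (σY n) n := (girth_cover _ (girth_Z n)).mono _ (Nat.le_succ n)

lemma exists_sY (n : ℕ) : ∃ s : YV n × Bool → ZMod 2, ∀ τ : YV n → ZMod 2,
    Fintype.card (YV n) ≤ 8 * (Finset.univ.filter fun e : YV n × Bool =>
      s e ≠ τ e.1 + τ (σY n e.2 e.1)).card :=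
  exists_frustrated (V := YV n) (E := YV n × Bool) Prod.fst (fun e => σY n e.2 e.1)
    (by rw [Fintype.card_prod (YV n) Bool, Fintype.card_bool, mul_comm])

/-- A frustrated signing of the homology cover. -/
noncomputable def sY (n : ℕ) : YV n × Bool → ZMod 2 := (exists_sY n).choose

/-- The vertices of the double cover. -/
abbrev XV (n : ℕ) : Type := YV n × ZMod 2

/-- The permutations of the double cover. -/
noncomputable def σX (n : ℕ) : Bool → Equiv.Perm (XV n) := ext (σY n) (sY n)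

/-- The source space. -/
abbrev XT : Type := Σ n, XV n

/-- The target space. -/
abbrev YT : Type := Σ n, YV n

noncomputable instance : MetricSpace XT :=
  wordMetric (P := Σ n, XV n) (glue σX) Sigma.fst (fst_act_glue σX)

lemma dist_XT (p q : XT) :
    dist p q = (wd (P := Σ n, XV n) (glue σX) Sigma.fst p q : ℝ) := rfl

/-- The coordinates of the Hilbert space. -/
abbrev J : Type := Σ n, (((Z n).V × Bool) ⊕ (((Z n).V → ZMod 2) × ℕ))

noncomputable instance : DecidableEq J := Classical.decEq _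

/-- The component invariant of a vertex of the homology cover. -/
noncomputable def comp (n : ℕ) (y : YV n) : (Z n).V → ZMod 2 := bd (Z n).σ y.2 + Pi.single y.1 1

/-- The finite set of coordinates attached to a point. -/
noncomputable def Φ (p : Σ n, YV n) : Finset J :=
  ((Finset.univ.filter fun e => p.2.2 e ≠ 0).disjSum
    ({comp p.1 p.2} ×ˢ Finset.range (p.1 + 1))).map (Function.Embedding.sigmaMk p.1)

lemma inl_mem_Φ (n : ℕ) (y : YV n) (e : (Z n).V × Bool) :
    (⟨n, Sum.inl e⟩ : J) ∈ Φ ⟨n, y⟩ ↔ y.2 e ≠ 0 := by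
  rw [Φ]
  change (Function.Embedding.sigmaMk n (Sum.inl e) : J) ∈ _ ↔ _
  rw [Finset.mem_map']
  simp

lemma inr_mem_Φ (n : ℕ) (y : YV n) (I : (Z n).V → ZMod 2) (k : ℕ) :
    (⟨n, Sum.inr (I, k)⟩ : J) ∈ Φ ⟨n, y⟩ ↔ I = comp n y ∧ k < n + 1 := by
  rw [Φ]
  change (Function.Embedding.sigmaMk n (Sum.inr (I, k)) : J) ∈ _ ↔ _
  rw [Finset.mem_map', Finset.inr_mem_disjSum, Finset.mem_product, Finset.mem_singleton,
    Finset.mem_range]

lemma fst_of_mem_Φ {p : Σ n, YV n} {j : J} (h : j ∈ Φ p) : j.1 = p.1 := by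
  rw [Φ, Finset.mem_map] at h
  obtain ⟨a, -, rfl⟩ := h
  rfl

lemma act_σY (n : ℕ) (w : List Letter) (y : YV n) :
    act (σY n) w y = (act (Z n).σ w y.1, y.2 + chain (Z n).σ w y.1) :=
  act_ext (Z n).σ sing fun_add_self w y.1 y.2

lemma comp_act (n : ℕ) (w : List Letter) (y : YV n) : comp n (act (σY n) w y) = comp n y := by
  rw [act_σY, comp, comp, map_add, bd_chain, add_assoc, add_assoc, fun_add_self, add_zero]

lemma zmod2_add_ne_zero (x y : ZMod 2) :
    x + y ≠ 0 ↔ (x ≠ 0 ∧ ¬ y ≠ 0) ∨ (y ≠ 0 ∧ ¬ x ≠ 0) := by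
  revert x y; decide

lemma norm_le_card (n : ℕ) (y y' : YV n) :
    hammingNorm (y.2 + y'.2) ≤ (Φ ⟨n, y⟩ ∆ Φ ⟨n, y'⟩).card := by
  rw [hammingNorm]
  refine Finset.card_le_card_of_injOn (fun e => (⟨n, Sum.inl e⟩ : J)) ?_ ?_
  · intro e he
    simp only [Finset.coe_filter, Finset.mem_univ, true_and, Set.mem_ofPred_eq,
      Pi.add_apply] at he
    rw [Finset.mem_coe, Finset.mem_symmDiff, inl_mem_Φ, inl_mem_Φ]
    exact (zmod2_add_ne_zero _ _).1 he
  · intro e _ e' _ h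
    simpa using h

lemma card_le_norm (n : ℕ) (y y' : YV n) (h : comp n y = comp n y') :
    (Φ ⟨n, y⟩ ∆ Φ ⟨n, y'⟩).card ≤ hammingNorm (y.2 + y'.2) := by
  rw [hammingNorm]
  refine le_trans (Finset.card_le_card ?_)
    (Finset.card_image_le (f := fun e => (⟨n, Sum.inl e⟩ : J)))
  rintro ⟨m, j⟩ hj
  have hm : m = n := by
    rw [Finset.mem_symmDiff] at hj
    rcases hj with h | h
    · exact fst_of_mem_Φ h.1
    · exact fst_of_mem_Φ h.1
  subst hm
  rcases j with e | ⟨I, k⟩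
  · rw [Finset.mem_symmDiff, inl_mem_Φ, inl_mem_Φ] at hj
    refine Finset.mem_image.2 ⟨e, ?_, rfl⟩
    rw [Finset.mem_filter]
    exact ⟨Finset.mem_univ _, (zmod2_add_ne_zero _ _).2 hj⟩
  · rw [Finset.mem_symmDiff, inr_mem_Φ, inr_mem_Φ, h] at hj
    tauto

lemma card_act_le (w : List Letter) (p : Σ n, YV n) :
    (Φ p ∆ Φ (act (glue σY) w p)).card ≤ w.length := by
  obtain ⟨n, y⟩ := p
  rw [act_glue]
  refine (card_le_norm n y _ (comp_act n w y).symm).trans ?_
  rw [act_σY, ← add_assoc, fun_add_self, zero_add]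
  exact hammingNorm_chain_le _ _ _

lemma walk_of_card_le {p q : Σ n, YV n} {k : ℕ} (h : (Φ p ∆ Φ q).card ≤ k) (hk : k ≤ q.1) :
    ∃ w : List Letter, w.length ≤ k ∧ act (glue σY) w p = q := by
  obtain ⟨n, y⟩ := p
  obtain ⟨m, y'⟩ := q
  simp only at hk
  have h1 : ∃ j < m + 1, (⟨m, Sum.inr (comp m y', j)⟩ : J) ∈ Φ ⟨n, y⟩ := by
    by_contra hcon
    push Not at hcon
    have : (Finset.range (m + 1)).card ≤ (Φ ⟨n, y⟩ ∆ Φ ⟨m, y'⟩).card := by
      refine Finset.card_le_card_of_injOn (fun j => (⟨m, Sum.inr (comp m y', j)⟩ : J)) ?_ ?_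
      · intro j hj
        rw [Finset.mem_coe, Finset.mem_range] at hj
        rw [Finset.mem_coe, Finset.mem_symmDiff]
        exact Or.inr ⟨(inr_mem_Φ _ _ _ _).2 ⟨rfl, hj⟩, hcon j hj⟩
      · intro j _ j' _ h
        simpa using h
    rw [Finset.card_range] at this
    omega
  obtain ⟨j, -, hj⟩ := h1
  obtain rfl : m = n := fst_of_mem_Φ hj
  have hc : comp m y' = comp m y := ((inr_mem_Φ _ _ _ _).1 hj).1
  have h2 := (norm_le_card m y y').trans h
  have h3 : bd (Z m).σ (y.2 + y'.2) = Pi.single y.1 1 + Pi.single y'.1 1 := by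
    have e1 : bd (Z m).σ y.2 = comp m y + Pi.single y.1 1 := by
      rw [comp, add_assoc, fun_add_self, add_zero]
    have e2 : bd (Z m).σ y'.2 = comp m y' + Pi.single y'.1 1 := by
      rw [comp, add_assoc, fun_add_self, add_zero]
    rw [map_add, e1, e2, hc, add_add_add_comm, fun_add_self, zero_add]
  obtain ⟨w, hw1, hw2, hw3⟩ :=
    exists_walk_of_chain (Z m).σ (girth_Z m) _ (y.2 + y'.2) y.1 y'.1 (h2.trans hk) rfl h3
  refine ⟨w, hw1 ▸ h2, ?_⟩
  rw [act_glue, act_σY, hw2, hw3, ← add_assoc, fun_add_self, zero_add]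

/-- The map of the target space into Hilbert space. -/
noncomputable def Ψ (p : YT) : lp (fun _ : J => ℝ) 2 := emb (Φ p)

lemma Ψ_injective : Function.Injective Ψ := by
  intro p q h
  have h1 := norm_emb_sub_sq (Φ p) (Φ q)
  rw [show emb (Φ p) = emb (Φ q) from h, sub_self, norm_zero] at h1
  have h2 : (Φ p ∆ Φ q).card ≤ 0 := by
    have : ((Φ p ∆ Φ q).card : ℝ) = 0 := by rw [← h1]; norm_num
    exact_mod_cast this.le
  obtain ⟨w, hw, h3⟩ := walk_of_card_le h2 (Nat.zero_le _)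
  rw [Nat.le_zero, List.length_eq_zero_iff] at hw
  subst hw
  exact h3

noncomputable instance : MetricSpace YT := MetricSpace.induced Ψ Ψ_injective inferInstance

lemma dist_YT_sq (p q : YT) : dist p q ^ 2 = (Φ p ∆ Φ q).card := by
  rw [← norm_emb_sub_sq, ← dist_eq_norm]
  rfl

/-- The covering map. -/
def proj (p : XT) : YT := ⟨p.1, p.2.1⟩

lemma act_σX (n : ℕ) (w : List Letter) (x : XV n) :
    act (σX n) w x = (act (σY n) w x.1, x.2 + hol (σY n) (sY n) w x.1) :=
  act_ext (σY n) (sY n) zmod2_add_self w x.1 x.2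

lemma proj_act (w : List Letter) (p : Σ n, XV n) :
    proj (act (glue σX) w p) = act (glue σY) w (proj p) := by
  obtain ⟨n, x⟩ := p
  rw [act_glue, act_σX]
  exact (act_glue σY w n x.1).symm

lemma ulf_X : UnifLocFinite XT := by
  intro r _
  obtain ⟨N, hN⟩ := exists_bound σX ⌈r⌉₊
  refine ⟨N, fun p => hN p _ fun q hq => ?_⟩
  have h1 : dist p q ≤ r := Metric.mem_closedBall'.1 hq
  rw [dist_XT] at h1
  have h2 : wd (P := Σ n, XV n) (glue σX) Sigma.fst p q ≤ ⌈r⌉₊ := by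
    exact_mod_cast h1.trans (Nat.le_ceil r)
  rcases wd_cases (P := Σ n, XV n) (glue σX) Sigma.fst p q with h | ⟨w, hw, h⟩
  · left; omega
  · right; exact ⟨w, hw ▸ h2, h⟩

lemma ulf_Y : UnifLocFinite YT := by
  intro r _
  obtain ⟨N, hN⟩ := exists_bound σY ⌈r ^ 2⌉₊
  refine ⟨N, fun p => hN p _ fun q hq => ?_⟩
  have h1 : dist p q ≤ r := Metric.mem_closedBall'.1 hq
  have h2 : (Φ p ∆ Φ q).card ≤ ⌈r ^ 2⌉₊ := by
    have := pow_le_pow_left₀ dist_nonneg h1 2
    rw [dist_YT_sq] at this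
    exact_mod_cast this.trans (Nat.le_ceil _)
  by_cases h : q.1 ≤ ⌈r ^ 2⌉₊
  · exact Or.inl h
  · exact Or.inr (walk_of_card_le h2 (by omega))

lemma coarse_proj : IsCoarseMap proj := by
  intro r hr
  have hfin : Set.Finite (α := YT) {p : Σ n, YV n | p.1 ≤ ⌈r⌉₊} := finite_level ⌈r⌉₊
  obtain ⟨C, hC⟩ := Metric.isBounded_iff.1 hfin.isBounded
  refine ⟨max C (r + 1), lt_max_of_lt_right (by linarith), fun p q h1 => ?_⟩
  rw [dist_XT] at h1
  rcases wd_cases (P := Σ n, XV n) (glue σX) Sigma.fst p q with h | ⟨w, hw, h⟩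
  · have h2 : wd (P := Σ n, XV n) (glue σX) Sigma.fst p q ≤ ⌈r⌉₊ := by
      exact_mod_cast h1.trans (Nat.le_ceil r)
    refine le_max_of_le_left (hC ?_ ?_)
    · change p.1 ≤ _
      omega
    · change q.1 ≤ _
      omega
  · refine le_max_of_le_right ?_
    have h2 := card_act_le w (proj p)
    rw [← proj_act, h] at h2
    have h3 : dist (proj p) (proj q) ^ 2 ≤ r := by
      rw [dist_YT_sq]
      refine le_trans ?_ h1
      exact_mod_cast hw ▸ h2
    nlinarith [dist_nonneg (x := proj p) (y := proj q), sq_nonneg (dist (proj p) (proj q) - 1)]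

lemma fibre_proj (y : YT) : (proj ⁻¹' {y}).encard ≤ 2 := by
  obtain ⟨n, y⟩ := y
  have : proj ⁻¹' {(⟨n, y⟩ : YT)} ⊆ {(⟨n, (y, 0)⟩ : XT), (⟨n, (y, 1)⟩ : XT)} := by
    rintro ⟨m, y', a⟩ h
    have h' : (⟨m, y'⟩ : Σ n, YV n) = ⟨n, y⟩ := h
    obtain ⟨rfl, h2⟩ := Sigma.mk.inj_iff.1 h'
    obtain rfl := eq_of_heq h2
    have : a = 0 ∨ a = 1 := by clear h h' h2; revert a; decide
    rcases this with rfl | rfl
    · exact Or.inl rfl
    · exact Or.inr rfl
  refine (Set.encard_le_encard this).trans ((Set.encard_insert_le _ _).trans ?_)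
  rw [Set.encard_singleton]
  rfl

lemma ce_Y : CoarselyEmbedsInHilbert.{0} YT :=
  ⟨lp (fun _ : J => ℝ) 2, inferInstance, inferInstance, inferInstance, Ψ, id, id,
    Filter.tendsto_id, fun x x' => by
      have : nndist x x' = ‖Ψ x - Ψ x'‖₊ := by
        rw [← nndist_eq_nnnorm]; rfl
      exact ⟨this.le, this.ge⟩⟩

lemma wd_deck (n : ℕ) (y : YV n) :
    wd (P := Σ n, XV n) (glue σX) Sigma.fst ⟨n, (y, 0)⟩ ⟨n, (y, 1)⟩ = n + 1 := by
  have h0 := wd_le_max (P := Σ n, XV n) (glue σX) Sigma.fst ⟨n, (y, 0)⟩ ⟨n, (y, 1)⟩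
  simp only [max_self] at h0
  rcases wd_cases (P := Σ n, XV n) (glue σX) Sigma.fst ⟨n, (y, 0)⟩ ⟨n, (y, 1)⟩ with h | ⟨w, hw, h⟩
  · simpa using h
  · by_contra hne
    have hlen : w.length ≤ n := by omega
    rw [act_glue, act_σX] at h
    have h1 := eq_of_heq (Sigma.mk.inj_iff.1 h).2
    rw [Prod.mk.injEq] at h1
    have h2 := hol_eq_zero_of_chain (σY n) (sY n) (girth_Y n w y hlen h1.1)
    have h3 := h1.2
    simp only [h2, add_zero] at h3
    exact zero_ne_one h3

lemma wd_edge (n : ℕ) (y : YV n) (i : Bool) (a : ZMod 2) :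
    wd (P := Σ n, XV n) (glue σX) Sigma.fst ⟨n, (y, a)⟩ ⟨n, (σY n i y, a + sY n (y, i))⟩ ≤ 1 :=
  wd_le_length (P := Σ n, XV n) (glue σX) Sigma.fst (w := [(i, true)]) rfl

universe u

lemma not_ce_X : ¬ CoarselyEmbedsInHilbert.{u} XT := by
  rintro ⟨H, _, _, _, g, ρm, ρp, hρ, hg⟩
  let B : ℝ := 2 * (ρp 1 : ℝ) + 1
  have hB : 0 < B := by positivity
  obtain ⟨t, ht⟩ := Filter.eventually_atTop.1 (hρ.eventually_ge_atTop (512 * B).toNNReal)
  let n : ℕ := ⌈t⌉₊
  have hedge : ∀ p q : XT, wd (P := Σ n, XV n) (glue σX) Sigma.fst p q ≤ 1 →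
      ‖g p - g q‖ ≤ ρp 1 := by
    intro p q h
    rcases Nat.le_one_iff_eq_zero_or_eq_one.1 h with h | h
    · have : p = q := eq_of_dist_eq_zero (by rw [dist_XT, h]; simp)
      rw [this, sub_self, norm_zero]
      positivity
    · have h1 : nndist p q = 1 := by
        apply NNReal.eq
        rw [coe_nndist, dist_XT, h]
        simp
      have := (hg p q).2
      rw [h1] at this
      exact_mod_cast this
  let u : YV n → H := fun y => g ⟨n, (y, 0)⟩ - g ⟨n, (y, 1)⟩
  have hu : ∀ y, 512 * B ≤ ‖u y‖ := by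
    intro y
    have h1 := (hg ⟨n, (y, 0)⟩ ⟨n, (y, 1)⟩).1
    have h2 : t ≤ nndist (⟨n, (y, 0)⟩ : XT) (⟨n, (y, 1)⟩ : XT) := by
      rw [← NNReal.coe_le_coe, coe_nndist, dist_XT, wd_deck]
      have : (t : ℝ) ≤ n := by exact_mod_cast Nat.le_ceil t
      push_cast
      linarith
    have h3 := (ht _ h2).trans h1
    rw [Real.toNNReal_le_iff_le_coe] at h3
    exact h3
  have he : ∀ e : YV n × Bool, ‖u e.1 - sgn (sY n e) • u (σY n e.2 e.1)‖ ≤ B := by
    rintro ⟨y, i⟩
    have h0 := hedge _ _ (wd_edge n y i 0)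
    have h1 := hedge _ _ (wd_edge n y i 1)
    have hs : sY n (y, i) = 0 ∨ sY n (y, i) = 1 := by
      generalize sY n (y, i) = x
      revert x; decide
    have h11 : (1 : ZMod 2) + 1 = 0 := by decide
    rcases hs with hs | hs
    · rw [hs] at h0 h1 ⊢
      rw [add_zero] at h0 h1
      have : u y - sgn 0 • u (σY n i y) = (g ⟨n, (y, 0)⟩ - g ⟨n, (σY n i y, 0)⟩)
          - (g ⟨n, (y, 1)⟩ - g ⟨n, (σY n i y, 1)⟩) := by
        simp only [u, sgn, if_true, one_smul]
        abel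
      rw [this]
      refine (norm_sub_le _ _).trans ?_
      simp only [B]
      linarith
    · rw [hs] at h0 h1 ⊢
      rw [zero_add] at h0
      rw [h11] at h1
      have : u y - sgn 1 • u (σY n i y) = (g ⟨n, (y, 0)⟩ - g ⟨n, (σY n i y, 1)⟩)
          - (g ⟨n, (y, 1)⟩ - g ⟨n, (σY n i y, 0)⟩) := by
        simp only [u, sgn, one_ne_zero, if_false, neg_smul, one_smul]
        abel
      rw [this]
      refine (norm_sub_le _ _).trans ?_
      simp only [B]
      linarith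
  obtain ⟨τ, hτ⟩ := rounding (V := YV n) (E := YV n × Bool) Prod.fst (fun e => σY n e.2 e.1)
    (sY n) u hB hu he
  have h2 := (exists_sY n).choose_spec τ
  rw [Fintype.card_prod (YV n) Bool, Fintype.card_bool] at hτ
  have h3 : Fintype.card (YV n) ≠ 0 := Fintype.card_ne_zero
  change Fintype.card (YV n) ≤ 8 * (Finset.univ.filter fun e : YV n × Bool =>
      sY n e ≠ τ e.1 + τ (σY n e.2 e.1)).card at h2
  omega

end Pool.Agent.Work.MP_2695c4_gt
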